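import Pool.Agent.Helper11.LV.Defs

/-!
# LV, A1 `dec` and A4 `mb_mu`, `mb_la`
-/

set_option autoImplicit false

namespace Pool.Agent.Helper82.LV

open Finset Pool.Agent.Helper11.LV

lemma smo_rou {y k m : ℕ} (hk : Smo y k) (hm : Rou y m) : k.Coprime m := by
  apply Nat.Coprime.symm
  apply Nat.coprime_of_dvd
  intro p hp h1 h2
  exact absurd (hm p hp h1) (not_lt.2 (hk p hp h2))

lemma ex_dec (y : ℕ) : ∀ n : ℕ, 1 ≤ n → ∃ k m : ℕ, 1 ≤ k ∧ 1 ≤ m ∧ n = k * m ∧ Smo y k ∧ Rou y m := by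
  intro n
  induction n using induction_on_primes with
  | zero => intro h; omega
  | one =>
    intro _
    refine ⟨1, 1, le_rfl, le_rfl, rfl, fun p hp h => ?_, fun p hp h => ?_⟩
    · exact absurd (Nat.dvd_one.1 h) hp.one_lt.ne'
    · exact absurd (Nat.dvd_one.1 h) hp.one_lt.ne'
  | prime_mul p n hp ih =>
    intro h
    have hn : 1 ≤ n := Nat.pos_of_ne_zero (by rintro rfl; simp at h)
    obtain ⟨k, m, h1, h2, h3, h4, h5⟩ := ih hn
    by_cases hy : p ≤ y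
    · refine ⟨p * k, m, Nat.mul_pos hp.pos h1, h2, by rw [h3]; ring, fun q hq h => ?_, h5⟩
      rcases (Nat.Prime.dvd_mul hq).1 h with h | h
      · rwa [(Nat.prime_dvd_prime_iff_eq hq hp).1 h]
      · exact h4 q hq h
    · refine ⟨k, p * m, h1, Nat.mul_pos hp.pos h2, by rw [h3]; ring, h4, fun q hq h => ?_⟩
      rcases (Nat.Prime.dvd_mul hq).1 h with h | h
      · rw [(Nat.prime_dvd_prime_iff_eq hq hp).1 h]; omega
      · exact h5 q hq h

lemma uniq {y k m k' m' : ℕ} (hk0 : 1 ≤ k) (hk : Smo y k) (hm : Rou y m) (hk' : Smo y k') (hm' : Rou y m')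
    (h : k * m = k' * m') : k = k' ∧ m = m' := by
  have h1 : k ∣ k' := (smo_rou hk hm').dvd_of_dvd_mul_right (by rw [← h]; exact dvd_mul_right _ _)
  have h2 : k' ∣ k := (smo_rou hk' hm).dvd_of_dvd_mul_right (by rw [h]; exact dvd_mul_right _ _)
  have h3 := Nat.dvd_antisymm h1 h2
  subst h3
  exact ⟨rfl, Nat.eq_of_mul_eq_mul_left hk0 h⟩

/-- A1 -/
theorem dec (y N : ℕ) {f : ℕ → ℂ} (hf : MB f) (w : ℕ → ℂ) :
    ∑ n ∈ Icc 1 N, f n * w n = ∑ m ∈ rS y 0 N, f m * ∑ k ∈ sS y (N / m), f k * w (k * m) := by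
  have h1 : ∑ m ∈ rS y 0 N, f m * ∑ k ∈ sS y (N / m), f k * w (k * m) =
      ∑ q ∈ (rS y 0 N).sigma (fun m => sS y (N / m)), f q.1 * (f q.2 * w (q.2 * q.1)) := by
    rw [Finset.sum_sigma]
    refine Finset.sum_congr rfl fun m _ => ?_
    rw [Finset.mul_sum]
  rw [h1]
  symm
  apply Finset.sum_bij (fun (q : (_ : ℕ) × ℕ) _ => q.2 * q.1)
  · intro q hq
    rw [Finset.mem_sigma, mem_rS, mem_sS] at hq
    obtain ⟨⟨h2, h3, h4⟩, h5, h6, h7⟩ := hq
    rw [Finset.mem_Icc]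
    exact ⟨Nat.mul_pos h5 h2, (Nat.le_div_iff_mul_le h2).1 h6⟩
  · intro q hq q' hq' h
    rw [Finset.mem_sigma, mem_rS, mem_sS] at hq hq'
    obtain ⟨⟨h2, h3, h4⟩, h5, h6, h7⟩ := hq
    obtain ⟨⟨k2, k3, k4⟩, k5, k6, k7⟩ := hq'
    obtain ⟨e1, e2⟩ := uniq h5 h7 h4 k7 k4 h
    obtain ⟨a, b⟩ := q
    obtain ⟨a', b'⟩ := q'
    simp only at e1 e2
    subst e1 e2
    rfl
  · intro n hn
    rw [Finset.mem_Icc] at hn
    obtain ⟨k, m, h2, h3, h4, h5, h6⟩ := ex_dec y n hn.1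
    refine ⟨⟨m, k⟩, ?_, h4.symm⟩
    rw [Finset.mem_sigma, mem_rS, mem_sS]
    have h7 : m ≤ n := by rw [h4]; exact Nat.le_mul_of_pos_left _ h2
    exact ⟨⟨h3, h7.trans hn.2, h6⟩, h2, (Nat.le_div_iff_mul_le h3).2 (by rw [← h4]; exact hn.2), h5⟩
  · intro q hq
    rw [Finset.mem_sigma, mem_rS, mem_sS] at hq
    rw [hf.mul q.2 q.1 (smo_rou hq.2.2.2 hq.1.2.2)]
    ring

/-- A4 -/
theorem mb_mu {χ : ℕ → ℂ} (hχ : CMB χ) : MB (muf χ) := by
  constructor
  · unfold muf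
    simp [hχ.one]
  · intro m n h
    unfold muf
    rw [ArithmeticFunction.isMultiplicative_moebius.map_mul_of_coprime h, hχ.mul]
    push_cast
    ring
  · intro n
    unfold muf
    rw [norm_mul, Complex.norm_intCast]
    have h1 : |((ArithmeticFunction.moebius n : ℤ) : ℝ)| ≤ 1 := by
      exact_mod_cast ArithmeticFunction.abs_moebius_le_one
    exact mul_le_one₀ h1 (norm_nonneg _) (hχ.le n)

theorem mb_la {χ : ℕ → ℂ} (hχ : CMB χ) : MB (laf χ) := by
  constructor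
  · unfold laf
    simp [hχ.one]
  · intro m n h
    unfold laf
    rcases Nat.eq_zero_or_pos m with hm | hm
    · subst hm
      rw [Nat.coprime_zero_left] at h
      subst h
      simp [hχ.one]
    · rcases Nat.eq_zero_or_pos n with hn | hn
      · subst hn
        rw [Nat.coprime_zero_right] at h
        subst h
        simp [hχ.one]
      · rw [ArithmeticFunction.cardFactors_mul hm.ne' hn.ne', hχ.mul, pow_add]
        ring
  · intro n
    unfold laf
    rw [norm_mul, norm_pow, norm_neg, norm_one, one_pow, one_mul]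
    exact hχ.le n

end Pool.Agent.Helper82.LV
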