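import Pool.Agent.Helper11.LV.Defs

/-!
# LV, D4: `pair_sum`
-/

set_option autoImplicit false

namespace Pool.Agent.Helper82.LV

open Finset

/-- `∑ n^(-(1+d)) ≤ 1 + 1/d` -/
lemma zeta_le {d : ℝ} (hd : 0 < d) (N : ℕ) : ∑ n ∈ Icc 1 N, (n : ℝ) ^ (-(1 + d)) ≤ 1 + 1 / d := by
  have key : ∀ N : ℕ, 1 ≤ N → ∑ n ∈ Icc 1 N, (n : ℝ) ^ (-(1 + d)) ≤ 1 + 1 / d - (1 / d) * (N : ℝ) ^ (-d) := by
    intro N hN
    induction N, hN using Nat.le_induction with
    | base => simp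
    | succ n hn ih =>
      rw [Finset.sum_Icc_succ_top (by omega)]
      have hn0 : (0:ℝ) < n := by exact_mod_cast hn
      -- (n+1)^(-(1+d)) ≤ (1/d)(n^(-d) - (n+1)^(-d))
      have h1 : ((n + 1 : ℕ) : ℝ) ^ (-(1 + d)) ≤ (1 / d) * ((n : ℝ) ^ (-d) - ((n + 1 : ℕ) : ℝ) ^ (-d)) := by
        obtain ⟨c, hc, hc2⟩ := exists_deriv_eq_slope (fun x : ℝ => x ^ (-d)) (show (n : ℝ) < n + 1 by linarith)
          (fun x hx => (Real.continuousAt_rpow_const x (-d) (Or.inl (by linarith [hx.1] |> fun h : 0 < x => h.ne'))).continuousWithinAt)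
          (fun x hx => ((Real.hasDerivAt_rpow_const (p := -d) (Or.inl (by linarith [hx.1] |> fun h : 0 < x => h.ne'))).differentiableAt).differentiableWithinAt)
        have hc0 : 0 < c := by linarith [hc.1]
        rw [(Real.hasDerivAt_rpow_const (p := -d) (Or.inl hc0.ne')).deriv] at hc2
        have h2 : ((n : ℝ) + 1) ^ (-d - 1) ≤ c ^ (-d - 1) :=
          Real.rpow_le_rpow_of_nonpos hc0 hc.2.le (by linarith)
        have h3 : (n : ℝ) ^ (-d) - ((n : ℝ) + 1) ^ (-d) = d * c ^ (-d - 1) := by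
          have : ((n : ℝ) + 1 - n) = 1 := by ring
          rw [this, div_one] at hc2
          linarith
        push_cast
        rw [h3, show -(1 + d) = -d - 1 by ring, ← mul_assoc, one_div_mul_cancel hd.ne', one_mul]
        exact h2
      push_cast at h1 ih ⊢
      linarith
  rcases Nat.eq_zero_or_pos N with h | h
  · subst h
    simp
    positivity
  · refine (key N h).trans ?_
    have : 0 ≤ (1 / d) * (N : ℝ) ^ (-d) := by positivity
    linarith

lemma sq_free {n : ℕ} (hn : 1 ≤ n) : ∃ k a : ℕ, 1 ≤ k ∧ 1 ≤ a ∧ n = k * a ^ 2 ∧ Squarefree k := by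
  obtain ⟨k, a, h1, h2⟩ := Nat.sq_mul_squarefree n
  refine ⟨k, a, ?_, ?_, ?_, h2⟩
  · rcases Nat.eq_zero_or_pos k with h | h
    · subst h; omega
    · exact h
  · rcases Nat.eq_zero_or_pos a with h | h
    · subst h; simp at h1; omega
    · exact h
  · rw [← h1]; ring

lemma sq_free_eq {k l : ℕ} (hk : Squarefree k) (hl : Squarefree l) (h : IsSquare (k * l)) : k = l := by
  have key : ∀ k l : ℕ, Squarefree k → Squarefree l → IsSquare (k * l) → k.primeFactors ⊆ l.primeFactors := by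
    intro k l hk hl h
    intro p hp
    have hpp := Nat.prime_of_mem_primeFactors hp
    have hpk := Nat.dvd_of_mem_primeFactors hp
    rw [Nat.mem_primeFactors]
    refine ⟨hpp, ?_, hl.ne_zero⟩
    obtain ⟨r, hr⟩ := h
    have hpr : p ∣ r := by
      have : p ∣ r * r := by rw [← hr]; exact hpk.mul_right l
      exact (Nat.Prime.dvd_mul hpp).1 this |>.elim id id
    have hp2 : p * p ∣ k * l := by rw [hr]; exact mul_dvd_mul hpr hpr
    by_contra hpl
    have hcop : Nat.Coprime (p * p) l := by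
      have := (Nat.Prime.coprime_iff_not_dvd hpp).2 hpl
      exact Nat.Coprime.mul_left this this
    have := hcop.dvd_of_dvd_mul_right hp2
    have h3 := hk p this
    exact hpp.one_lt.ne' (Nat.isUnit_iff.1 h3)
  have h1 := Finset.Subset.antisymm (key k l hk hl h) (key l k hl hk (by rwa [mul_comm]))
  rw [← Nat.prod_primeFactors_of_squarefree hk, ← Nat.prod_primeFactors_of_squarefree hl, h1]

open Classical in
/-- D4 -/
theorem pair_sum {d : ℝ} (hd : 0 < d) (hd1 : d ≤ 1) {A : ℕ} (hA : 1 ≤ A) (T : Finset ℕ) (hT : ∀ m ∈ T, A ≤ m) :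
    ∑ m ∈ T, ∑ n ∈ T, (if IsSquare (m * n) then (m : ℝ) ^ (-(1 / 2 + d)) * (n : ℝ) ^ (-(1 / 2 + d)) else 0) ≤
      (A : ℝ) ^ (-d) * (1 + 1 / d) ^ 3 := by
  have hA0 : (0:ℝ) < A := by exact_mod_cast hA
  choose! kf af hk1 ha1 hn hsq using fun (n : ℕ) (hn : 1 ≤ n) => sq_free hn
  obtain ⟨M, hM⟩ : ∃ M, ∀ m ∈ T, m ≤ M := ⟨T.sup id, fun m hm => Finset.le_sup (f := id) hm⟩
  rw [← Finset.sum_product', ← Finset.sum_filter]
  obtain ⟨f, hf⟩ : ∃ f : ℕ × ℕ × ℕ → ℝ, f = fun q => (A : ℝ) ^ (-d) * ((q.1 : ℝ) ^ (-(1 + d)) * ((q.2.1 : ℝ) ^ (-(1 + d)) * (q.2.2 : ℝ) ^ (-(1 + d)))) := ⟨_, rfl⟩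
  obtain ⟨I, hI⟩ : ∃ I : Finset (ℕ × ℕ × ℕ), I = Icc 1 M ×ˢ (Icc 1 M ×ˢ Icc 1 M) := ⟨_, rfl⟩
  obtain ⟨φ, hφ⟩ : ∃ φ : ℕ × ℕ → ℕ × ℕ × ℕ, φ = fun q => (kf q.1, af q.1, af q.2) := ⟨_, rfl⟩
  have hT1 : ∀ m ∈ T, 1 ≤ m := fun m hm => hA.trans (hT m hm)
  have hkk : ∀ m n : ℕ, m ∈ T → n ∈ T → IsSquare (m * n) → kf m = kf n := by
    intro m n hm hn' h
    apply sq_free_eq (hsq m (hT1 m hm)) (hsq n (hT1 n hn'))
    obtain ⟨r, hr⟩ := h
    -- m n = kf m * kf n * (af m * af n)^2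
    have h1 : (kf m * kf n) * (af m * af n) ^ 2 = r ^ 2 := by
      rw [← sq] at hr
      rw [← hr]
      conv_rhs => rw [hn m (hT1 m hm), hn n (hT1 n hn')]
      ring
    have h2 : af m * af n ∣ r := by
      rw [← Nat.pow_dvd_pow_iff (n := 2) (by norm_num), ← h1]
      exact dvd_mul_left _ _
    obtain ⟨t, ht⟩ := h2
    refine ⟨t, ?_⟩
    have h3 : 0 < (af m * af n) ^ 2 := by
      have := ha1 m (hT1 m hm)
      have := ha1 n (hT1 n hn')
      positivity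
    rw [ht] at h1
    have h4 : (kf m * kf n) * (af m * af n) ^ 2 = (t * t) * (af m * af n) ^ 2 := by
      rw [h1]; ring
    exact Nat.eq_of_mul_eq_mul_right h3 h4
  have h1 : ∑ q ∈ (T ×ˢ T).filter (fun q => IsSquare (q.1 * q.2)), (q.1 : ℝ) ^ (-(1 / 2 + d)) * (q.2 : ℝ) ^ (-(1 / 2 + d)) ≤
      ∑ q ∈ (T ×ˢ T).filter (fun q => IsSquare (q.1 * q.2)), f (φ q) := by
    refine Finset.sum_le_sum fun q hq => ?_
    rw [Finset.mem_filter, Finset.mem_product] at hq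
    obtain ⟨⟨hm, hn'⟩, hs⟩ := hq
    have hkeq := hkk q.1 q.2 hm hn' hs
    have m0 : (0:ℝ) < q.1 := by exact_mod_cast hT1 _ hm
    have n0 : (0:ℝ) < q.2 := by exact_mod_cast hT1 _ hn'
    have k0 : (0:ℝ) < kf q.1 := by exact_mod_cast hk1 _ (hT1 _ hm)
    have a0 : (0:ℝ) < af q.1 := by exact_mod_cast ha1 _ (hT1 _ hm)
    have b0 : (0:ℝ) < af q.2 := by exact_mod_cast ha1 _ (hT1 _ hn')
    have em : (q.1 : ℝ) = kf q.1 * (af q.1 : ℝ) ^ 2 := by exact_mod_cast hn q.1 (hT1 _ hm)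
    have en : (q.2 : ℝ) = kf q.1 * (af q.2 : ℝ) ^ 2 := by
      rw [hkeq]
      exact_mod_cast hn q.2 (hT1 _ hn')
    have e1 : (q.1 : ℝ) ^ (-(1 / 2 + d)) * (q.2 : ℝ) ^ (-(1 / 2 + d)) =
        ((q.1 : ℝ) * q.2) ^ (-(d / 2)) * ((q.1 : ℝ) * q.2) ^ (-((1 + d) / 2)) := by
      rw [← Real.mul_rpow m0.le n0.le, ← Real.rpow_add (by positivity)]
      congr 1
      ring
    have e2 : ((q.1 : ℝ) * q.2) ^ (-(d / 2)) ≤ (A : ℝ) ^ (-d) := by
      have h2 : (A : ℝ) * A ≤ q.1 * q.2 := by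
        have h3 : (A : ℝ) ≤ q.1 := by exact_mod_cast hT _ hm
        have h4 : (A : ℝ) ≤ q.2 := by exact_mod_cast hT _ hn'
        exact mul_le_mul h3 h4 hA0.le m0.le
      calc ((q.1 : ℝ) * q.2) ^ (-(d / 2)) ≤ ((A : ℝ) * A) ^ (-(d / 2)) :=
          Real.rpow_le_rpow_of_nonpos (by positivity) h2 (by linarith)
        _ = (A : ℝ) ^ (-d) := by
          rw [Real.mul_rpow hA0.le hA0.le, ← Real.rpow_add hA0]
          congr 1
          ring
    have e3 : ((q.1 : ℝ) * q.2) ^ (-((1 + d) / 2)) = (kf q.1 : ℝ) ^ (-(1 + d)) * ((af q.1 : ℝ) ^ (-(1 + d)) * (af q.2 : ℝ) ^ (-(1 + d))) := by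
      have h2 : (q.1 : ℝ) * q.2 = ((kf q.1 : ℝ) * (af q.1 * af q.2)) ^ (2 : ℝ) := by
        rw [em, en, Real.rpow_two]
        have : kf (q.1) = kf q.1 := rfl
        ring
      rw [h2, ← Real.rpow_mul (by positivity), show 2 * -((1 + d) / 2) = -(1 + d) by ring, Real.mul_rpow k0.le (by positivity),
        Real.mul_rpow a0.le b0.le]
    rw [e1, e3, hf, hφ]
    exact mul_le_mul_of_nonneg_right e2 (by positivity)
  refine h1.trans ?_
  have h2 : ∑ q ∈ (T ×ˢ T).filter (fun q => IsSquare (q.1 * q.2)), f (φ q) ≤ ∑ q ∈ I, f q := by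
    rw [← Finset.sum_image (f := f) (g := φ)]
    · apply Finset.sum_le_sum_of_subset_of_nonneg
      · intro z hz
        rw [Finset.mem_image] at hz
        obtain ⟨q, hq, rfl⟩ := hz
        rw [Finset.mem_filter, Finset.mem_product] at hq
        obtain ⟨⟨hm, hn'⟩, hs⟩ := hq
        rw [hI, hφ]
        simp only [Finset.mem_product, Finset.mem_Icc]
        have b1 : ∀ m ∈ T, kf m ≤ M ∧ af m ≤ M := by
          intro m hm
          have h3 := hn m (hT1 m hm)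
          have h4 := hk1 m (hT1 m hm)
          have h5 := ha1 m (hT1 m hm)
          have h6 := hM m hm
          constructor
          · have : kf m ≤ kf m * af m ^ 2 := Nat.le_mul_of_pos_right _ (by positivity)
            omega
          · have : af m ≤ kf m * af m ^ 2 := by nlinarith
            omega
        exact ⟨⟨hk1 _ (hT1 _ hm), (b1 _ hm).1⟩, ⟨ha1 _ (hT1 _ hm), (b1 _ hm).2⟩, ⟨ha1 _ (hT1 _ hn'), (b1 _ hn').2⟩⟩
      · intro z _ _
        rw [hf]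
        positivity
    · intro q hq q' hq' h
      rw [Finset.mem_coe, Finset.mem_filter, Finset.mem_product] at hq hq'
      rw [hφ] at h
      simp only [Prod.mk.injEq] at h
      obtain ⟨h3, h4, h5⟩ := h
      have k1 := hkk _ _ hq.1.1 hq.1.2 hq.2
      have k2 := hkk _ _ hq'.1.1 hq'.1.2 hq'.2
      ext
      · rw [hn _ (hT1 _ hq.1.1), hn _ (hT1 _ hq'.1.1), h3, h4]
      · rw [hn _ (hT1 _ hq.1.2), hn _ (hT1 _ hq'.1.2), ← k1, ← k2, h3, h5]
  refine h2.trans ?_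
  have h3 : ∑ q ∈ I, f q = (A : ℝ) ^ (-d) * (∑ n ∈ Icc 1 M, (n : ℝ) ^ (-(1 + d))) ^ 3 := by
    rw [hI, hf, Finset.sum_product]
    simp only [Finset.sum_product]
    simp only [← Finset.mul_sum, ← Finset.sum_mul]
    ring
  rw [h3]
  apply mul_le_mul_of_nonneg_left _ (by positivity)
  exact pow_le_pow_left₀ (Finset.sum_nonneg fun n _ => by positivity) (zeta_le hd M) 3

end Pool.Agent.Helper82.LV
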