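import Pool.Agent.Helper11.LV.QDefs
import Pool.Agent.Helper31.Q3.J1a
import Pool.Agent.Helper82.LV.Pair
import Pool.Agent.Helper82.LV.Dec

/-!
# LV, D2: `sub_corr`
-/

set_option autoImplicit false

namespace Pool.Agent.Helper82.LV

open Finset MeasureTheory Pool.Agent.QT Pool.Agent.Helper11.Q3 Pool.Agent.Helper11.LV

lemma mu_cop {n : ℕ} (hn : n ≠ 0) (q : ℕ) : (if n.Coprime q then (1:ℤ) else 0) =
    ∑ e ∈ n.divisors, if e ∣ q then ArithmeticFunction.moebius e else 0 := by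
  rw [← Finset.sum_filter]
  have h1 : n.divisors.filter (fun e => e ∣ q) = (n.gcd q).divisors := by
    ext e
    rw [Finset.mem_filter, Nat.mem_divisors, Nat.mem_divisors, Nat.dvd_gcd_iff]
    have : n.gcd q ≠ 0 := (Nat.gcd_pos_of_pos_left _ (Nat.pos_of_ne_zero hn)).ne'
    tauto
  rw [h1, ← ArithmeticFunction.coe_mul_zeta_apply, ArithmeticFunction.moebius_mul_coe_zeta, ArithmeticFunction.one_apply]

lemma sq_ind (n : ℕ) {q : ℕ} (hq : q ≠ 0) : (jacobiSym (n : ℤ) q) ^ 2 = if n.Coprime q then (1:ℤ) else 0 := by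
  by_cases h : n.Coprime q
  · rw [if_pos h]
    apply jacobiSym.sq_one
    rw [Int.gcd_natCast_natCast]
    exact h
  · rw [if_neg h]
    have : jacobiSym (n : ℤ) q = 0 := by
      rw [jacobiSym.eq_zero_iff]
      refine ⟨hq, ?_⟩
      rw [Int.gcd_natCast_natCast]
      exact h
    rw [this]
    norm_num

lemma prod_smo {y : ℕ} {t : Finset ℕ} (ht : t ⊆ Pr y) : Smo y (∏ p ∈ t, p) := by
  intro q hq h
  rw [Prime.dvd_finsetProd_iff hq.prime] at h
  obtain ⟨p, hp, hqp⟩ := h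
  have h1 := mem_Pr.1 (ht hp)
  rw [(Nat.prime_dvd_prime_iff_eq hq h1.1).1 hqp]
  exact h1.2

lemma prod_sqf {t : Finset ℕ} (ht : ∀ p ∈ t, p.Prime) : Squarefree (∏ p ∈ t, p) := by
  induction t using Finset.induction_on with
  | empty => simp
  | insert p t hpt ih =>
    rw [Finset.prod_insert hpt, Nat.squarefree_mul]
    · exact ⟨(ht p (Finset.mem_insert_self _ _)).squarefree, ih fun q hq => ht q (Finset.mem_insert_of_mem hq)⟩
    · apply Nat.Coprime.prod_right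
      intro q hq
      rw [Nat.coprime_primes (ht p (Finset.mem_insert_self _ _)) (ht q (Finset.mem_insert_of_mem hq))]
      rintro rfl
      exact hpt hq

/-- one term -/
lemma one_term {C : ℝ} (H : ∀ (Q a b : ℕ), Squarefree a → 1 < a → Odd b →
    |∑ q ∈ (OS Q).filter (fun q => b ∣ q), (jacobiSym a q : ℝ)| ≤ C * a * Real.sqrt Q) (hC : 0 < C) {Q K n : ℕ} (hK : Squarefree K)
    (hK1 : 1 < K) (hn : 1 ≤ n) :
    |∑ q ∈ OS Q, ((jacobiSym (K : ℤ) q : ℤ) : ℝ) * ((if n.Coprime q then (1:ℤ) else 0 : ℤ) : ℝ)| ≤ C * (K * n) * Real.sqrt Q := by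
  have h1 : ∑ q ∈ OS Q, ((jacobiSym (K : ℤ) q : ℤ) : ℝ) * ((if n.Coprime q then (1:ℤ) else 0 : ℤ) : ℝ) =
      ∑ e ∈ n.divisors, (ArithmeticFunction.moebius e : ℝ) * ∑ q ∈ (OS Q).filter (fun q => e ∣ q), ((jacobiSym (K : ℤ) q : ℤ) : ℝ) := by
    have h2 : ∀ q ∈ OS Q, ((jacobiSym (K : ℤ) q : ℤ) : ℝ) * ((if n.Coprime q then (1:ℤ) else 0 : ℤ) : ℝ) =
        ∑ e ∈ n.divisors, (ArithmeticFunction.moebius e : ℝ) * (if e ∣ q then ((jacobiSym (K : ℤ) q : ℤ) : ℝ) else 0) := by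
      intro q _
      rw [mu_cop (by omega : n ≠ 0) q, Int.cast_sum, Finset.mul_sum]
      refine Finset.sum_congr rfl fun e _ => ?_
      by_cases h : e ∣ q
      · rw [if_pos h, if_pos h]; ring
      · rw [if_neg h, if_neg h]; simp
    rw [Finset.sum_congr rfl h2, Finset.sum_comm]
    refine Finset.sum_congr rfl fun e _ => ?_
    rw [← Finset.mul_sum, Finset.sum_filter]
  rw [h1]
  have h2 : ∀ e ∈ n.divisors, |(ArithmeticFunction.moebius e : ℝ) * ∑ q ∈ (OS Q).filter (fun q => e ∣ q), ((jacobiSym (K : ℤ) q : ℤ) : ℝ)| ≤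
      C * K * Real.sqrt Q := by
    intro e he
    rw [abs_mul]
    have h3 : |(ArithmeticFunction.moebius e : ℝ)| ≤ 1 := by exact_mod_cast ArithmeticFunction.abs_moebius_le_one
    have h4 : |∑ q ∈ (OS Q).filter (fun q => e ∣ q), ((jacobiSym (K : ℤ) q : ℤ) : ℝ)| ≤ C * K * Real.sqrt Q := by
      rcases Nat.even_or_odd e with h | h
      · have : (OS Q).filter (fun q => e ∣ q) = ∅ := by
          rw [Finset.filter_eq_empty_iff]
          intro q hq hd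
          unfold OS at hq
          rw [Finset.mem_filter] at hq
          have h5 : Even q := by
            obtain ⟨r, rfl⟩ := hd
            exact h.mul_right r
          exact (Nat.not_even_iff_odd.2 hq.2.1) h5
        rw [this, Finset.sum_empty, abs_zero]
        positivity
      · exact H Q K e hK hK1 h
    calc _ ≤ 1 * (C * K * Real.sqrt Q) := mul_le_mul h3 h4 (abs_nonneg _) (by norm_num)
      _ = _ := one_mul _
  refine (Finset.abs_sum_le_sum_abs _ _).trans ((Finset.sum_le_sum h2).trans ?_)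
  rw [Finset.sum_const, nsmul_eq_mul]
  have h5 : (n.divisors.card : ℝ) ≤ n := by exact_mod_cast Nat.card_divisors_le_self n
  have h6 : 0 ≤ C * K * Real.sqrt Q := by positivity
  calc _ ≤ (n : ℝ) * (C * K * Real.sqrt Q) := mul_le_mul_of_nonneg_right h5 h6
    _ = _ := by ring

/-- D2 -/
theorem sub_corr : ∃ C : ℝ, 0 < C ∧ ∀ Q y m : ℕ, 1 ≤ m → Rou y m → ¬ IsSquare m →
    ‖∑ q ∈ Sub Q y, ja q m‖ ≤ C * 32 ^ y * (m : ℝ) ^ 2 * Real.sqrt Q := by
  classical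
  obtain ⟨C, hC, H⟩ := Pool.Agent.Helper31.Q3.j1a
  refine ⟨C, hC, fun Q y m hm hr hs => ?_⟩
  obtain ⟨k, a, hk1, ha1, hka, hsq⟩ := sq_free hm
  have hk2 : 1 < k := by
    rcases Nat.lt_or_ge 1 k with h | h
    · exact h
    · exfalso
      have : k = 1 := by omega
      subst this
      exact hs ⟨a, by rw [hka]; ring⟩
  have hrk : Rou y k := fun p hp h => hr p hp (by rw [hka]; exact h.mul_right _)
  -- the sum over OS
  have h1 : ‖∑ q ∈ Sub Q y, ja q m‖ = |∑ q ∈ Sub Q y, ((jacobiSym (m : ℤ) q : ℤ) : ℝ)| := by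
    unfold ja
    have : ∑ q ∈ Sub Q y, ((jacobiSym (m : ℤ) q : ℤ) : ℂ) = ((∑ q ∈ Sub Q y, ((jacobiSym (m : ℤ) q : ℤ) : ℝ) : ℝ) : ℂ) := by
      push_cast
      rfl
    rw [this, Complex.norm_real, Real.norm_eq_abs]
  rw [h1]
  have h2 : ∑ q ∈ Sub Q y, ((jacobiSym (m : ℤ) q : ℤ) : ℝ) = ∑ q ∈ OS Q, ((jacobiSym (m : ℤ) q : ℤ) : ℝ) *
      ∏ p ∈ Pr y, ((((jacobiSym (p : ℤ) q : ℤ) : ℝ) + ((jacobiSym (p : ℤ) q : ℤ) : ℝ) ^ 2) / 2) := by
    unfold Pool.Agent.Helper11.LV.Sub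
    rw [Finset.sum_filter]
    refine Finset.sum_congr rfl fun q _ => ?_
    by_cases h : ∀ p ∈ Pr y, jacobiSym (p : ℤ) q = 1
    · rw [if_pos h]
      have : ∏ p ∈ Pr y, ((((jacobiSym (p : ℤ) q : ℤ) : ℝ) + ((jacobiSym (p : ℤ) q : ℤ) : ℝ) ^ 2) / 2) = 1 := by
        apply Finset.prod_eq_one
        intro p hp
        rw [h p hp]
        norm_num
      rw [this, mul_one]
    · rw [if_neg h]
      push Not at h
      obtain ⟨p, hp, hne⟩ := h
      have : ∏ p ∈ Pr y, ((((jacobiSym (p : ℤ) q : ℤ) : ℝ) + ((jacobiSym (p : ℤ) q : ℤ) : ℝ) ^ 2) / 2) = 0 := by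
        apply Finset.prod_eq_zero hp
        rcases jacobiSym.trichotomy (p : ℤ) q with h | h | h
        · rw [h]; norm_num
        · exact absurd h hne
        · rw [h]; norm_num
      rw [this, mul_zero]
  have h3 : ∀ q : ℕ, ∏ p ∈ Pr y, ((((jacobiSym (p : ℤ) q : ℤ) : ℝ) + ((jacobiSym (p : ℤ) q : ℤ) : ℝ) ^ 2) / 2) =
      (∑ t ∈ (Pr y).powerset, (∏ p ∈ t, ((jacobiSym (p : ℤ) q : ℤ) : ℝ)) * ∏ p ∈ Pr y \ t, ((jacobiSym (p : ℤ) q : ℤ) : ℝ) ^ 2) / 2 ^ (Pr y).card := by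
    intro q
    rw [Finset.prod_div_distrib, Finset.prod_const, Finset.prod_add]
  have h4 : ∑ q ∈ Sub Q y, ((jacobiSym (m : ℤ) q : ℤ) : ℝ) = (∑ t ∈ (Pr y).powerset, ∑ q ∈ OS Q,
      ((jacobiSym ((k * ∏ p ∈ t, p : ℕ) : ℤ) q : ℤ) : ℝ) * ((if (a * ∏ p ∈ Pr y \ t, p).Coprime q then (1:ℤ) else 0 : ℤ) : ℝ)) / 2 ^ (Pr y).card := by
    rw [h2, Finset.sum_comm, Finset.sum_div]
    refine Finset.sum_congr rfl fun q hq => ?_
    rw [h3, ← mul_div_assoc, Finset.mul_sum]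
    congr 1
    refine Finset.sum_congr rfl fun t _ => ?_
    have hq0 : q ≠ 0 := by
      unfold OS at hq
      rw [Finset.mem_filter, Finset.mem_Icc] at hq
      omega
    have hprod : ∀ u : Finset ℕ, jacobiSym ((∏ p ∈ u, p : ℕ) : ℤ) q = ∏ p ∈ u, jacobiSym (p : ℤ) q := by
      intro u
      induction u using Finset.induction_on with
      | empty => simp [jacobiSym.one_left]
      | insert p u hp ih =>
        rw [Finset.prod_insert hp, Finset.prod_insert hp, ← ih]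
        push_cast
        rw [jacobiSym.mul_left]
    rw [← sq_ind _ hq0]
    have e1 : jacobiSym (m : ℤ) q = jacobiSym (k : ℤ) q * jacobiSym (a : ℤ) q ^ 2 := by
      rw [hka]
      push_cast
      rw [jacobiSym.mul_left, jacobiSym.pow_left]
    have e2 : jacobiSym ((k * ∏ p ∈ t, p : ℕ) : ℤ) q = jacobiSym (k : ℤ) q * ∏ p ∈ t, jacobiSym (p : ℤ) q := by
      rw [Nat.cast_mul, jacobiSym.mul_left, hprod]
    have e3 : jacobiSym ((a * ∏ p ∈ Pr y \ t, p : ℕ) : ℤ) q = jacobiSym (a : ℤ) q * ∏ p ∈ Pr y \ t, jacobiSym (p : ℤ) q := by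
      rw [Nat.cast_mul, jacobiSym.mul_left, hprod]
    rw [e1, e2, e3, Finset.prod_pow]
    push_cast
    ring
  rw [h4, abs_div, abs_of_pos (by positivity : (0:ℝ) < 2 ^ (Pr y).card), div_le_iff₀ (by positivity)]
  have hP : ((∏ p ∈ Pr y, p : ℕ) : ℝ) ≤ 4 ^ y := by
    have h5 : ∏ p ∈ Pr y, p = primorial y := by
      unfold primorial
      apply Finset.prod_congr _ fun _ _ => rfl
      ext p
      rw [mem_Pr, Finset.mem_filter, Finset.mem_range]
      constructor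
      · rintro ⟨h1, h2⟩; exact ⟨by omega, h1⟩
      · rintro ⟨h1, h2⟩; exact ⟨h2, by omega⟩
    rw [h5]
    exact_mod_cast primorial_le_four_pow y
  have h5 : ∀ t ∈ (Pr y).powerset, |∑ q ∈ OS Q, ((jacobiSym ((k * ∏ p ∈ t, p : ℕ) : ℤ) q : ℤ) : ℝ) *
      ((if (a * ∏ p ∈ Pr y \ t, p).Coprime q then (1:ℤ) else 0 : ℤ) : ℝ)| ≤ C * 32 ^ y * (m : ℝ) ^ 2 * Real.sqrt Q := by
    intro t ht
    rw [Finset.mem_powerset] at ht
    have p1 : 1 ≤ ∏ p ∈ t, p := Finset.prod_pos fun p hp => (mem_Pr.1 (ht hp)).1.pos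
    have p2 : 1 ≤ ∏ p ∈ Pr y \ t, p := Finset.prod_pos fun p hp => (mem_Pr.1 (Finset.mem_sdiff.1 hp).1).1.pos
    have h6 := one_term H hC (Q := Q) (K := k * ∏ p ∈ t, p) (n := a * ∏ p ∈ Pr y \ t, p)
      ((Nat.squarefree_mul (smo_rou (prod_smo ht) hrk).symm).2 ⟨hsq, prod_sqf fun p hp => (mem_Pr.1 (ht hp)).1⟩)
      (by nlinarith) (Nat.mul_pos ha1 p2)
    refine h6.trans ?_
    have h7 : ((k * ∏ p ∈ t, p : ℕ) : ℝ) * ((a * ∏ p ∈ Pr y \ t, p : ℕ) : ℝ) = ((k * a : ℕ) : ℝ) * ((∏ p ∈ Pr y, p : ℕ) : ℝ) := by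
      rw [← Finset.prod_sdiff ht]
      push_cast
      ring
    rw [h7]
    have h8 : ((k * a : ℕ) : ℝ) ≤ (m : ℝ) ^ 2 := by
      have h9 : k * a ≤ m := by
        rw [hka]
        exact Nat.mul_le_mul_left k (by nlinarith)
      have h10 : m ≤ m ^ 2 := Nat.le_self_pow (by norm_num) m
      exact_mod_cast h9.trans h10
    have h9 : (4:ℝ) ^ y ≤ 32 ^ y := pow_le_pow_left₀ (by norm_num) (by norm_num) y
    have h10 : ((k * a : ℕ) : ℝ) * ((∏ p ∈ Pr y, p : ℕ) : ℝ) ≤ (m : ℝ) ^ 2 * 32 ^ y :=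
      mul_le_mul h8 (hP.trans h9) (by positivity) (by positivity)
    calc _ ≤ C * ((m : ℝ) ^ 2 * 32 ^ y) * Real.sqrt Q := mul_le_mul_of_nonneg_right (mul_le_mul_of_nonneg_left h10 hC.le) (Real.sqrt_nonneg _)
      _ = _ := by ring
  refine (Finset.abs_sum_le_sum_abs _ _).trans ((Finset.sum_le_sum h5).trans ?_)
  rw [Finset.sum_const, Finset.card_powerset, nsmul_eq_mul]
  apply le_of_eq
  push_cast
  ring

end Pool.Agent.Helper82.LV
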