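import Pool.Agent.Helper11.LV.QDefs

/-!
# LV, D3: `sub_sq`, the second moment (over D2)
-/

set_option autoImplicit false

namespace Pool.Agent.Helper82.LV

open Finset MeasureTheory Pool.Agent.QT Pool.Agent.Helper11.Q3 Pool.Agent.Helper11.LV

/-- the statement of D2 -/
def SubCorr : Prop := ∃ C : ℝ, 0 < C ∧ ∀ Q y m : ℕ, 1 ≤ m → Rou y m → ¬ IsSquare m →
    ‖∑ q ∈ Sub Q y, ja q m‖ ≤ C * 32 ^ y * (m : ℝ) ^ 2 * Real.sqrt Q

lemma ja_mul (q m n : ℕ) : ja q (m * n) = ja q m * ja q n := by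
  unfold ja
  push_cast
  rw [jacobiSym.mul_left]
  push_cast
  rfl

lemma ja_conj (q n : ℕ) : (starRingEnd ℂ) (ja q n) = ja q n := by
  unfold ja
  exact map_intCast (starRingEnd ℂ) _

lemma ja_le (q n : ℕ) : ‖ja q n‖ ≤ 1 := by
  unfold ja
  rw [Complex.norm_intCast]
  rcases jacobiSym.trichotomy (n : ℤ) q with h | h | h <;> rw [h] <;> norm_num

lemma rou_mul {y m n : ℕ} (hm : Rou y m) (hn : Rou y n) : Rou y (m * n) := by
  intro p hp h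
  rcases (Nat.Prime.dvd_mul hp).1 h with h | h
  · exact hm p hp h
  · exact hn p hp h

open Classical in
/-- D3 -/
theorem sub_sq (hcorr : SubCorr) : ∃ C : ℝ, 0 < C ∧ ∀ (Q y N : ℕ) (T : Finset ℕ) (c : ℕ → ℂ), (∀ m ∈ T, 1 ≤ m ∧ m ≤ N ∧ Rou y m) →
    ∑ q ∈ Sub Q y, ‖∑ m ∈ T, c m * ja q m‖ ^ 2 ≤
      (Sub Q y).card * ∑ m ∈ T, ∑ n ∈ T, (if IsSquare (m * n) then ‖c m‖ * ‖c n‖ else 0) +
      C * 32 ^ y * (N : ℝ) ^ 4 * Real.sqrt Q * (∑ m ∈ T, ‖c m‖) ^ 2 := by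
  obtain ⟨C, hC, H⟩ := hcorr
  refine ⟨C, hC, fun Q y N T c hT => ?_⟩
  have h1 : ∀ q : ℕ, ((‖∑ m ∈ T, c m * ja q m‖ ^ 2 : ℝ) : ℂ) = ∑ m ∈ T, ∑ n ∈ T, c m * (starRingEnd ℂ) (c n) * ja q (m * n) := by
    intro q
    have h2 : ((‖∑ m ∈ T, c m * ja q m‖ ^ 2 : ℝ) : ℂ) = (∑ m ∈ T, c m * ja q m) * (starRingEnd ℂ) (∑ m ∈ T, c m * ja q m) := by
      rw [Complex.mul_conj, Complex.normSq_eq_norm_sq]
    rw [h2, map_sum, Finset.sum_mul_sum]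
    refine Finset.sum_congr rfl fun m _ => Finset.sum_congr rfl fun n _ => ?_
    rw [map_mul, ja_conj, ja_mul]
    ring
  have h2 : ((∑ q ∈ Sub Q y, ‖∑ m ∈ T, c m * ja q m‖ ^ 2 : ℝ) : ℂ) =
      ∑ m ∈ T, ∑ n ∈ T, c m * (starRingEnd ℂ) (c n) * ∑ q ∈ Sub Q y, ja q (m * n) := by
    rw [Complex.ofReal_sum, Finset.sum_congr rfl fun q _ => h1 q, Finset.sum_comm]
    refine Finset.sum_congr rfl fun m _ => ?_
    rw [Finset.sum_comm]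
    refine Finset.sum_congr rfl fun n _ => ?_
    rw [Finset.mul_sum]
  have h3 : ∑ q ∈ Sub Q y, ‖∑ m ∈ T, c m * ja q m‖ ^ 2 =
      ‖∑ m ∈ T, ∑ n ∈ T, c m * (starRingEnd ℂ) (c n) * ∑ q ∈ Sub Q y, ja q (m * n)‖ := by
    rw [← h2, Complex.norm_real, Real.norm_eq_abs, abs_of_nonneg (Finset.sum_nonneg fun q _ => by positivity)]
  rw [h3]
  have h4 : ∀ m ∈ T, ∀ n ∈ T, ‖c m * (starRingEnd ℂ) (c n) * ∑ q ∈ Sub Q y, ja q (m * n)‖ ≤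
      (Sub Q y).card * (if IsSquare (m * n) then ‖c m‖ * ‖c n‖ else 0) + C * 32 ^ y * (N : ℝ) ^ 4 * Real.sqrt Q * (‖c m‖ * ‖c n‖) := by
    intro m hm n hn
    obtain ⟨m1, m2, m3⟩ := hT m hm
    obtain ⟨n1, n2, n3⟩ := hT n hn
    rw [norm_mul, norm_mul, RCLike.norm_conj]
    have hc0 : 0 ≤ ‖c m‖ * ‖c n‖ := by positivity
    by_cases hs : IsSquare (m * n)
    · rw [if_pos hs]
      have h5 : ‖∑ q ∈ Sub Q y, ja q (m * n)‖ ≤ (Sub Q y).card := by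
        refine (norm_sum_le _ _).trans ?_
        calc ∑ q ∈ Sub Q y, ‖ja q (m * n)‖ ≤ ∑ q ∈ Sub Q y, (1:ℝ) := Finset.sum_le_sum fun q _ => ja_le _ _
          _ = _ := by simp
      have h6 : 0 ≤ C * 32 ^ y * (N : ℝ) ^ 4 * Real.sqrt Q * (‖c m‖ * ‖c n‖) := by positivity
      calc ‖c m‖ * ‖c n‖ * ‖∑ q ∈ Sub Q y, ja q (m * n)‖ ≤ ‖c m‖ * ‖c n‖ * (Sub Q y).card := mul_le_mul_of_nonneg_left h5 hc0
        _ = (Sub Q y).card * (‖c m‖ * ‖c n‖) := by ring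
        _ ≤ _ := by linarith
    · rw [if_neg hs, mul_zero, zero_add]
      have h5 := H Q y (m * n) (Nat.mul_pos m1 n1) (rou_mul m3 n3) hs
      have h6 : (((m * n : ℕ) : ℝ)) ^ 2 ≤ (N : ℝ) ^ 4 := by
        have : ((m * n : ℕ) : ℝ) ≤ (N : ℝ) ^ 2 := by
          push_cast
          rw [sq]
          exact mul_le_mul (by exact_mod_cast m2) (by exact_mod_cast n2) (by positivity) (by positivity)
        calc (((m * n : ℕ) : ℝ)) ^ 2 ≤ ((N : ℝ) ^ 2) ^ 2 := pow_le_pow_left₀ (by positivity) this 2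
          _ = _ := by ring
      have h7 : C * 32 ^ y * ((m * n : ℕ) : ℝ) ^ 2 * Real.sqrt Q ≤ C * 32 ^ y * (N : ℝ) ^ 4 * Real.sqrt Q := by
        gcongr
      calc ‖c m‖ * ‖c n‖ * ‖∑ q ∈ Sub Q y, ja q (m * n)‖ ≤ ‖c m‖ * ‖c n‖ * (C * 32 ^ y * (N : ℝ) ^ 4 * Real.sqrt Q) :=
          mul_le_mul_of_nonneg_left (h5.trans h7) hc0
        _ = _ := by ring
  refine (norm_sum_le _ _).trans ((Finset.sum_le_sum fun m hm => (norm_sum_le _ _).trans (Finset.sum_le_sum fun n hn => h4 m hm n hn)).trans ?_)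
  apply le_of_eq
  simp only [Finset.sum_add_distrib, ← Finset.mul_sum]
  congr 1
  rw [sq, Finset.sum_mul_sum]
  simp only [Finset.mul_sum]

end Pool.Agent.Helper82.LV
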